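import Mathlib

/-!
# The maximal stress can lie closer to the farthest boundary point than to the nearest one

There is a bounded convex planar domain `Ω`, symmetric about both coordinate axes, with smooth
boundary and not a disk, such that on the quarter of the boundary in the closed first quadrant the
farthest point `xf` and the nearest point `xn` to the origin are unique, and every point of maximal
stress of the torsion function on this quarter is strictly closer to `xf` than to `xn`.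
The torsion function is `(1 - |z|²)/2 + 10⁻⁴ Re (z² + z⁴/2 + z⁶/4)`.
-/

set_option autoImplicit false

open Set Filter Topology Metric

namespace Pool.Agent.Results.MP_f43ce7_an.StressNearFarthest

/-- `u` is the torsion function of the bounded open set `Ω` of the plane `ℂ`: it is continuous on
the closure, twice continuously differentiable in `Ω`, satisfies `Δ u = -2` there, and vanishes on
the boundary. -/
def IsTorsion (Ω : Set ℂ) (u : ℂ → ℝ) : Prop :=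
  ContinuousOn u (closure Ω) ∧ ContDiffOn ℝ 2 u Ω ∧
    (∀ x ∈ Ω, Laplacian.laplacian u x = -2) ∧ ∀ x ∈ frontier Ω, u x = 0

/-- The boundary of `Ω` is of class `C²`: near every boundary point, `Ω` is the set where a `C²`
function with nowhere vanishing derivative is negative. -/
def HasC2Boundary (Ω : Set ℂ) : Prop :=
  ∀ p ∈ frontier Ω, ∃ (V : Set ℂ) (g : ℂ → ℝ), IsOpen V ∧ p ∈ V ∧ ContDiffOn ℝ 2 g V ∧
    (∀ x ∈ V, fderiv ℝ g x ≠ 0) ∧ Ω ∩ V = {x | x ∈ V ∧ g x < 0}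

/-- The part `Γ` of the boundary in the closed first quadrant. -/
def Gam (Ω : Set ℂ) : Set ℂ := {z | z ∈ frontier Ω ∧ 0 ≤ z.re ∧ 0 ≤ z.im}

/-- `p` is a point of maximal stress: a boundary point at which the continuous extension `s` of
`|∇u|` to the closure of `Ω` attains its maximum over the boundary. -/
def IsMaxStress (Ω : Set ℂ) (u : ℂ → ℝ) (p : ℂ) : Prop :=
  p ∈ frontier Ω ∧ ∃ s : ℂ → ℝ, ContinuousOn s (closure Ω) ∧ (∀ x ∈ Ω, s x = ‖fderiv ℝ u x‖) ∧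
    ∀ q ∈ frontier Ω, s q ≤ s p

/-! ## The torsion function -/

/-- the holomorphic polynomial -/
noncomputable def P (z : ℂ) : ℂ := z ^ 2 + z ^ 4 / 2 + z ^ 6 / 4

/-- its derivative -/
noncomputable def P' (z : ℂ) : ℂ := 2 * z + 2 * z ^ 3 + 3 / 2 * z ^ 5

/-- the torsion function -/
noncomputable def u (z : ℂ) : ℝ := (1 - ‖z‖ ^ 2) / 2 + 1 / 10000 * (P z).re

/-- the gradient of `u` -/
noncomputable def g (z : ℂ) : ℂ := -z + 1 / 10000 * (starRingEnd ℂ) (P' z)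

/-- the domain -/
def Om : Set ℂ := {z | ‖z‖ < 3 / 2 ∧ 0 < u z}

/-- squared distance -/
noncomputable def rho (z : ℂ) : ℝ := z.re ^ 2 + z.im ^ 2

/-- real part of the square -/
noncomputable def A (z : ℂ) : ℝ := z.re ^ 2 - z.im ^ 2

lemma norm_sq_eq (z : ℂ) : ‖z‖ ^ 2 = rho z := by
  rw [← Complex.normSq_eq_norm_sq, Complex.normSq_apply]
  unfold rho
  ring

lemma P_re (z : ℂ) : (P z).re =
    A z + A z ^ 2 - rho z ^ 2 / 2 + A z ^ 3 - 3 / 4 * A z * rho z ^ 2 := by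
  obtain ⟨x, y⟩ := z
  have e4 : ∀ w : ℂ, (w / 4).re = w.re / 4 := fun w => by
    rw [show w / 4 = w / ((4 : ℝ) : ℂ) by norm_num, Complex.div_ofReal_re]
  have e2 : ∀ w : ℂ, (w / 2).re = w.re / 2 := fun w => by
    rw [show w / 2 = w / ((2 : ℝ) : ℂ) by norm_num, Complex.div_ofReal_re]
  unfold P A rho
  rw [Complex.add_re, Complex.add_re, e4, e2]
  simp only [pow_succ, pow_zero, one_mul, Complex.mul_re, Complex.mul_im]
  ring

lemma u_eq (z : ℂ) : u z = (1 - rho z) / 2 + 1 / 10000 *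
    (A z + A z ^ 2 - rho z ^ 2 / 2 + A z ^ 3 - 3 / 4 * A z * rho z ^ 2) := by
  unfold u
  rw [norm_sq_eq, P_re]

lemma g_re (x y : ℝ) : (g ⟨x, y⟩).re = -x + 1 / 10000 * (2 * x + 2 * (x ^ 3 - 3 * x * y ^ 2) +
    3 / 2 * (x ^ 5 - 10 * x ^ 3 * y ^ 2 + 5 * x * y ^ 4)) := by
  have e : ∀ w : ℂ, (1 / 10000 * w).re = 1 / 10000 * w.re := fun w => by
    rw [show (1 / 10000 : ℂ) = (((1 / 10000 : ℝ)) : ℂ) by norm_num, Complex.re_ofReal_mul]
  have e3 : ∀ w : ℂ, (3 / 2 * w).re = 3 / 2 * w.re := fun w => by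
    rw [show (3 / 2 : ℂ) = (((3 / 2 : ℝ)) : ℂ) by norm_num, Complex.re_ofReal_mul]
  have e2 : ∀ w : ℂ, (2 * w).re = 2 * w.re := fun w => by
    rw [show (2 : ℂ) = (((2 : ℝ)) : ℂ) by norm_num, Complex.re_ofReal_mul]
  unfold g P'
  rw [Complex.add_re, e, Complex.conj_re, Complex.add_re, Complex.add_re, e3, e2, e2]
  simp only [pow_succ, pow_zero, one_mul, Complex.mul_re, Complex.mul_im, Complex.neg_re]
  ring

lemma g_im (x y : ℝ) : (g ⟨x, y⟩).im = -y - 1 / 10000 * (2 * y + 2 * (3 * x ^ 2 * y - y ^ 3) +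
    3 / 2 * (5 * x ^ 4 * y - 10 * x ^ 2 * y ^ 3 + y ^ 5)) := by
  have e : ∀ w : ℂ, (1 / 10000 * w).im = 1 / 10000 * w.im := fun w => by
    rw [show (1 / 10000 : ℂ) = (((1 / 10000 : ℝ)) : ℂ) by norm_num, Complex.im_ofReal_mul]
  have e3 : ∀ w : ℂ, (3 / 2 * w).im = 3 / 2 * w.im := fun w => by
    rw [show (3 / 2 : ℂ) = (((3 / 2 : ℝ)) : ℂ) by norm_num, Complex.im_ofReal_mul]
  have e2 : ∀ w : ℂ, (2 * w).im = 2 * w.im := fun w => by
    rw [show (2 : ℂ) = (((2 : ℝ)) : ℂ) by norm_num, Complex.im_ofReal_mul]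
  unfold g P'
  rw [Complex.add_im, e, Complex.conj_im, Complex.add_im, Complex.add_im, e3, e2, e2]
  simp only [pow_succ, pow_zero, one_mul, Complex.mul_re, Complex.mul_im, Complex.neg_im]
  ring

/-- the squared stress in the variables `rho` and `A` -/
lemma norm_g_sq (z : ℂ) : ‖g z‖ ^ 2 = rho z - 2 / 10000 *
    (2 * A z + 4 * A z ^ 2 - 2 * rho z ^ 2 + 6 * A z ^ 3 - 9 / 2 * A z * rho z ^ 2) +
    1 / 10000 ^ 2 * (rho z * (4 + 4 * rho z ^ 2 + 9 / 4 * rho z ^ 4 + 8 * A z + 12 * A z ^ 2 -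
      6 * rho z ^ 2 + 6 * rho z ^ 2 * A z)) := by
  obtain ⟨x, y⟩ := z
  rw [← Complex.normSq_eq_norm_sq, Complex.normSq_apply, g_re, g_im]
  unfold rho A
  simp only
  ring

lemma hasFDeriv_u (z : ℂ) : HasFDerivAt u (innerSL ℝ (g z)) z := by
  have h1 : HasFDerivAt (fun z : ℂ => ‖z‖ ^ 2) (2 • (innerSL ℝ z)) z :=
    (hasStrictFDerivAt_norm_sq z).hasFDerivAt
  have h2 : HasDerivAt P (P' z) z := by
    have h := ((hasDerivAt_pow 2 z).add ((hasDerivAt_pow 4 z).div_const 2)).add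
      ((hasDerivAt_pow 6 z).div_const 4)
    refine h.congr_deriv ?_
    unfold P'
    push_cast
    ring
  have h3 : HasFDerivAt (fun z : ℂ => (P z).re)
      (Complex.reCLM.comp ((ContinuousLinearMap.toSpanSingleton ℂ (P' z)).restrictScalars ℝ)) z :=
    Complex.reCLM.hasFDerivAt.comp z (h2.hasFDerivAt.restrictScalars ℝ)
  have h4 : HasFDerivAt u ((1 / 2 : ℝ) • (0 - 2 • (innerSL ℝ z)) + (1 / 10000 : ℝ) •
      (Complex.reCLM.comp ((ContinuousLinearMap.toSpanSingleton ℂ (P' z)).restrictScalars ℝ))) z := by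
    have h5 := (((hasFDerivAt_const (1 : ℝ) z).sub h1).const_mul (1 / 2)).add
      (h3.const_mul (1 / 10000))
    refine h5.congr_of_eventuallyEq (Eventually.of_forall fun w => ?_)
    simp only [u, Pi.add_apply, Pi.sub_apply]
    ring
  refine h4.congr_fderiv ?_
  have e : ∀ w : ℂ, (1 / 10000 * w).re = 1 / 10000 * w.re := fun w => by
    rw [show (1 / 10000 : ℂ) = (((1 / 10000 : ℝ)) : ℂ) by norm_num, Complex.re_ofReal_mul]
  ext v
  simp [g, Complex.inner]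
  ring_nf

lemma fderiv_u (z : ℂ) : fderiv ℝ u z = innerSL ℝ (g z) := (hasFDeriv_u z).fderiv

lemma norm_fderiv_u (z : ℂ) : ‖fderiv ℝ u z‖ = ‖g z‖ := by
  rw [fderiv_u, innerSL_apply_norm]

lemma g_cont : Continuous g := by
  unfold g P'
  fun_prop

lemma contDiff_P : ContDiff ℝ 2 P := by
  unfold P
  fun_prop

lemma contDiff_u : ContDiff ℝ 2 u := by
  unfold u
  have h1 : ContDiff ℝ 2 fun z : ℂ => ‖z‖ ^ 2 := contDiff_norm_sq ℝ
  have h2 : ContDiff ℝ 2 fun z : ℂ => (P z).re := Complex.reCLM.contDiff.comp contDiff_P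
  exact ((contDiff_const.sub h1).div_const 2).add (contDiff_const.mul h2)

lemma u_cont : Continuous u := contDiff_u.continuous

/-- the Laplacian of the square of the norm -/
lemma laplacian_normSq (x : ℂ) : Laplacian.laplacian (fun y : ℂ => ‖y‖ ^ 2) x = 4 := by
  have h1 : fderiv ℝ (fun y : ℂ => ‖y‖ ^ 2) = fun y => 2 • (innerSL ℝ y) := by
    funext y
    exact fderiv_norm_sq_apply y
  rw [InnerProductSpace.laplacian_eq_iteratedFDeriv_complexPlane]
  simp only [iteratedFDeriv_two_apply, Matrix.cons_val_zero, Matrix.cons_val_one,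
    Matrix.cons_val_fin_one, h1]
  have h2 : ∀ v : ℂ, fderiv ℝ (fun y : ℂ => 2 • (innerSL ℝ y)) x v v = 2 * ‖v‖ ^ 2 := by
    intro v
    have h3 : HasFDerivAt (fun y : ℂ => 2 • (innerSL ℝ y)) (2 • (innerSL ℝ : ℂ →L[ℝ] ℂ →L[ℝ] ℝ)) x := by
      exact ((innerSL ℝ : ℂ →L[ℝ] ℂ →L[ℝ] ℝ).hasFDerivAt).const_smul 2
    rw [h3.fderiv]
    have h4 : innerSL ℝ v v = ‖v‖ ^ 2 := by
      rw [innerSL_apply_apply, real_inner_self_eq_norm_sq]
    simp [h4]
  simp [h2]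
  norm_num

lemma laplacian_u (z : ℂ) : Laplacian.laplacian u z = -2 := by
  have hP : AnalyticAt ℂ P z := by
    unfold P
    fun_prop
  have h1 := hP.harmonicAt_re
  have h2 : ContDiffAt ℝ 2 (fun z : ℂ => ‖z‖ ^ 2) z := (contDiff_norm_sq ℝ).contDiffAt
  have h3 : ContDiffAt ℝ 2 (fun z : ℂ => (P z).re) z := h1.1
  have h4 : u = (fun _ : ℂ => (1 / 2 : ℝ)) + ((-(1 / 2) : ℝ) • (fun z : ℂ => ‖z‖ ^ 2)) +
      ((1 / 10000 : ℝ) • (fun z : ℂ => (P z).re)) := by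
    funext w
    simp only [u, Pi.add_apply, Pi.smul_apply, smul_eq_mul]
    ring
  have h5 : ContDiffAt ℝ 2 ((fun _ : ℂ => (1 / 2 : ℝ))) z := contDiffAt_const
  have h6 : ContDiffAt ℝ 2 ((-(1 / 2) : ℝ) • (fun z : ℂ => ‖z‖ ^ 2)) z :=
    (ContDiffAt.const_smul (-(1 / 2) : ℝ) h2 :)
  have h7 : ContDiffAt ℝ 2 ((1 / 10000 : ℝ) • (fun z : ℂ => (P z).re)) z :=
    (ContDiffAt.const_smul (1 / 10000 : ℝ) h3 :)
  have h8 : ContDiffAt ℝ 2 ((fun _ : ℂ => (1 / 2 : ℝ)) + ((-(1 / 2) : ℝ) • (fun z : ℂ => ‖z‖ ^ 2))) z :=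
    (ContDiffAt.add h5 h6 :)
  rw [h4, ContDiffAt.laplacian_add h8 h7, ContDiffAt.laplacian_add h5 h6,
    InnerProductSpace.laplacian_smul _ h2, InnerProductSpace.laplacian_smul _ h3,
    laplacian_normSq, h1.2.self_of_nhds]
  simp
  norm_num

/-! ## Concavity -/

/-- the remainder -/
noncomputable def R (z w : ℂ) : ℂ := 1 + (3 * z ^ 2 + 2 * z * w + w ^ 2) / 2 +
  (5 * z ^ 4 + 4 * z ^ 3 * w + 3 * z ^ 2 * w ^ 2 + 2 * z * w ^ 3 + w ^ 4) / 4

lemma P_taylor (z w : ℂ) : P w = P z + P' z * (w - z) + (w - z) ^ 2 * R z w := by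
  unfold P P' R
  ring

lemma norm_R_le {z w : ℂ} (hz : ‖z‖ ≤ 3 / 2) (hw : ‖w‖ ≤ 3 / 2) : ‖R z w‖ ≤ 27 := by
  have hz0 := norm_nonneg z
  have hw0 := norm_nonneg w
  have a2 : ∀ i j : ℕ, ‖z ^ i * w ^ j‖ ≤ (3 / 2) ^ (i + j) := by
    intro i j
    rw [norm_mul, norm_pow, norm_pow, pow_add]
    gcongr
  have h1 : R z w = 1 + ((3 / 2 : ℝ) : ℂ) * (z ^ 2 * w ^ 0) + (z ^ 1 * w ^ 1) +
      ((1 / 2 : ℝ) : ℂ) * (z ^ 0 * w ^ 2) + ((5 / 4 : ℝ) : ℂ) * (z ^ 4 * w ^ 0) +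
      (z ^ 3 * w ^ 1) + ((3 / 4 : ℝ) : ℂ) * (z ^ 2 * w ^ 2) +
      ((1 / 2 : ℝ) : ℂ) * (z ^ 1 * w ^ 3) + ((1 / 4 : ℝ) : ℂ) * (z ^ 0 * w ^ 4) := by
    unfold R
    push_cast
    ring
  have hn : ∀ (c : ℝ) (v : ℂ) (B : ℝ), 0 ≤ c → ‖v‖ ≤ B → ‖(c : ℂ) * v‖ ≤ c * B := by
    intro c v B hc hv
    rw [norm_mul, Complex.norm_real, Real.norm_eq_abs, abs_of_nonneg hc]
    gcongr
  rw [h1]
  have n1 : ‖(1 : ℂ)‖ ≤ 1 := by simp
  have n2 := hn (3 / 2) _ _ (by norm_num) (a2 2 0)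
  have n3 := a2 1 1
  have n4 := hn (1 / 2) _ _ (by norm_num) (a2 0 2)
  have n5 := hn (5 / 4) _ _ (by norm_num) (a2 4 0)
  have n6 := a2 3 1
  have n7 := hn (3 / 4) _ _ (by norm_num) (a2 2 2)
  have n8 := hn (1 / 2) _ _ (by norm_num) (a2 1 3)
  have n9 := hn (1 / 4) _ _ (by norm_num) (a2 0 4)
  refine le_trans (norm_add_le_of_le (norm_add_le_of_le (norm_add_le_of_le (norm_add_le_of_le
    (norm_add_le_of_le (norm_add_le_of_le (norm_add_le_of_le (norm_add_le_of_le n1 n2) n3) n4) n5)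
      n6) n7) n8) n9) ?_
  norm_num

lemma u_tangent {z w : ℂ} (hz : ‖z‖ ≤ 3 / 2) (hw : ‖w‖ ≤ 3 / 2) :
    u w ≤ u z + innerSL ℝ (g z) (w - z) := by
  have h1 : ‖w‖ ^ 2 = ‖z‖ ^ 2 + 2 * inner ℝ z (w - z) + ‖w - z‖ ^ 2 := by
    have := norm_add_sq_real z (w - z)
    rwa [add_sub_cancel] at this
  have h2 : (P w).re = (P z).re + (P' z * (w - z)).re + ((w - z) ^ 2 * R z w).re := by
    rw [P_taylor z w]
    simp only [Complex.add_re]
  have h3 : ((w - z) ^ 2 * R z w).re ≤ 27 * ‖w - z‖ ^ 2 := by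
    refine le_trans (Complex.re_le_norm _) ?_
    rw [norm_mul, norm_pow]
    have := norm_R_le hz hw
    nlinarith [sq_nonneg ‖w - z‖]
  have h4 : innerSL ℝ (g z) (w - z) = -inner ℝ z (w - z) + 1 / 10000 * (P' z * (w - z)).re := by
    rw [innerSL_apply_apply]
    unfold g
    rw [inner_add_left, inner_neg_left]
    congr 1
    have e : ∀ w : ℂ, (1 / 10000 * w).re = 1 / 10000 * w.re := fun w => by
      rw [show (1 / 10000 : ℂ) = (((1 / 10000 : ℝ)) : ℂ) by norm_num, Complex.re_ofReal_mul]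
    rw [← e, Complex.inner]
    simp only [map_mul, Complex.conj_conj, map_div₀, map_one, map_ofNat]
    congr 1
    ring
  rw [h4]
  unfold u
  rw [h1, h2]
  nlinarith [sq_nonneg ‖w - z‖]

lemma u_concave : ConcaveOn ℝ (ball (0 : ℂ) (3 / 2)) u := by
  refine ⟨convex_ball _ _, ?_⟩
  intro z hz w hw a b ha hb hab
  have hm := convex_ball (0 : ℂ) (3 / 2) hz hw ha hb hab
  rw [mem_ball_zero_iff] at hz hw hm
  have h1 := u_tangent hm.le hz.le
  have h2 := u_tangent hm.le hw.le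
  set m := a • z + b • w with hmdef
  have h3 : a * innerSL ℝ (g m) (z - m) + b * innerSL ℝ (g m) (w - m) = 0 := by
    have : a • (z - m) + b • (w - m) = 0 := by
      have h4 : a • (z - m) + b • (w - m) = (a • z + b • w) - (a + b) • m := by
        rw [smul_sub, smul_sub, add_smul]
        abel
      rw [h4, hab, one_smul, ← hmdef, sub_self]
    have h5 := congrArg (innerSL ℝ (g m)) this
    rw [map_add, map_smul, map_smul, map_zero, smul_eq_mul, smul_eq_mul] at h5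
    exact h5
  simp only [smul_eq_mul]
  have h6 := mul_le_mul_of_nonneg_left h1 ha
  have h7 := mul_le_mul_of_nonneg_left h2 hb
  have h8 : a * u m + b * u m = u m := by rw [← add_mul, hab, one_mul]
  nlinarith

/-! ## The domain -/

lemma u_zero : u 0 = 1 / 2 := by
  rw [u_eq]
  simp [rho, A]

lemma re_P_le {z : ℂ} (hz : ‖z‖ ≤ 3 / 2) : |(P z).re| ≤ 8 := by
  refine le_trans (Complex.abs_re_le_norm _) ?_
  have hn : ∀ (k : ℕ), ‖z ^ k‖ ≤ (3 / 2) ^ k := by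
    intro k
    rw [norm_pow]
    have := norm_nonneg z
    gcongr
  have h1 : P z = z ^ 2 + ((1 / 2 : ℝ) : ℂ) * z ^ 4 + ((1 / 4 : ℝ) : ℂ) * z ^ 6 := by
    unfold P
    push_cast
    ring
  have hm : ∀ (c : ℝ) (k : ℕ), 0 ≤ c → ‖(c : ℂ) * z ^ k‖ ≤ c * (3 / 2) ^ k := by
    intro c k hc
    rw [norm_mul, Complex.norm_real, Real.norm_eq_abs, abs_of_nonneg hc]
    have := hn k
    gcongr
  rw [h1]
  refine le_trans (norm_add_le_of_le (norm_add_le_of_le (hn 2) (hm (1 / 2) 4 (by norm_num)))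
    (hm (1 / 4) 6 (by norm_num))) ?_
  norm_num

lemma u_neg_of_norm {z : ℂ} (hz : ‖z‖ = 3 / 2) : u z < 0 := by
  have h := abs_le.1 (re_P_le hz.le)
  unfold u
  rw [hz]
  linarith [h.2]

lemma Om_eq : Om = ball (0 : ℂ) (3 / 2) ∩ {z | 0 < u z} := by
  ext z
  simp [Om]

lemma Om_open : IsOpen Om := by
  rw [Om_eq]
  exact isOpen_ball.inter (isOpen_lt continuous_const u_cont)

lemma Om_convex : Convex ℝ Om := by
  have := u_concave.convex_gt 0
  rw [Om_eq]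
  exact this

lemma Om_bounded : Bornology.IsBounded Om := by
  rw [Om_eq]
  exact isBounded_ball.subset inter_subset_left

lemma zero_mem : (0 : ℂ) ∈ Om := by
  refine ⟨by simp, ?_⟩
  rw [u_zero]
  norm_num

lemma closure_sub : closure Om ⊆ {z | ‖z‖ ≤ 3 / 2 ∧ 0 ≤ u z} := by
  have hc : IsClosed {z : ℂ | ‖z‖ ≤ 3 / 2 ∧ 0 ≤ u z} :=
    (isClosed_le continuous_norm continuous_const).inter (isClosed_le continuous_const u_cont)
  exact closure_minimal (fun z hz => ⟨hz.1.le, hz.2.le⟩) hc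

lemma mem_frontier {z : ℂ} : z ∈ frontier Om ↔ ‖z‖ < 3 / 2 ∧ u z = 0 := by
  constructor
  · intro hz
    rw [frontier, Om_open.interior_eq] at hz
    obtain ⟨h1, h2⟩ := closure_sub hz.1
    have h3 : ‖z‖ < 3 / 2 := by
      rcases h1.lt_or_eq with h | h
      · exact h
      · exact absurd (u_neg_of_norm h) (not_lt.2 h2)
    refine ⟨h3, ?_⟩
    by_contra h4
    exact hz.2 ⟨h3, lt_of_le_of_ne h2 (Ne.symm h4)⟩
  · rintro ⟨h1, h2⟩
    rw [frontier, Om_open.interior_eq]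
    refine ⟨?_, fun h => absurd h.2 (by rw [h2]; exact lt_irrefl _)⟩
    have h3 : Tendsto (fun t : ℝ => (t : ℂ) * z) (𝓝[<] 1) (𝓝 z) := by
      have : Continuous fun t : ℝ => (t : ℂ) * z := by fun_prop
      have h4 := this.tendsto 1
      simp only [Complex.ofReal_one, one_mul] at h4
      exact h4.mono_left nhdsWithin_le_nhds
    refine mem_closure_of_tendsto h3 ?_
    have h5 : ∀ᶠ t : ℝ in 𝓝[<] 1, t ∈ Ioo (0 : ℝ) 1 := Ioo_mem_nhdsLT one_pos
    filter_upwards [h5] with t ht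
    have h6 := u_concave.2 (mem_ball_zero_iff.2 h1) (mem_ball_self (by norm_num : (0:ℝ) < 3 / 2))
      ht.1.le (by linarith [ht.2] : (0 : ℝ) ≤ 1 - t) (by ring)
    rw [h2, u_zero, smul_zero, zero_add, smul_zero, add_zero, Complex.real_smul, smul_eq_mul] at h6
    refine ⟨?_, ?_⟩
    · rw [norm_mul, Complex.norm_real, Real.norm_eq_abs, abs_of_pos ht.1]
      have := norm_nonneg z
      nlinarith [ht.1, ht.2]
    · nlinarith [ht.2]

lemma closure_eq : closure Om = Om ∪ frontier Om := closure_eq_self_union_frontier Om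

/-! ## Bounds at the boundary -/

lemma rho_nonneg (z : ℂ) : 0 ≤ rho z := by unfold rho; positivity

lemma A_le (z : ℂ) : A z ≤ rho z := by unfold A rho; nlinarith [sq_nonneg z.im]

lemma neg_le_A (z : ℂ) : -rho z ≤ A z := by unfold A rho; nlinarith [sq_nonneg z.re]

lemma rho_bound {z : ℂ} (hz : z ∈ frontier Om) : 998 / 1000 ≤ rho z ∧ rho z ≤ 1002 / 1000 := by
  obtain ⟨h1, h2⟩ := mem_frontier.1 hz
  have h3 := abs_le.1 (re_P_le h1.le)
  unfold u at h2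
  rw [norm_sq_eq] at h2
  constructor <;> linarith [h3.1, h3.2]

lemma dir_exists {d : ℂ} (hd : ‖d‖ = 1) : ∃ t : ℝ, 0 < t ∧ t < 3 / 2 ∧ (t : ℂ) * d ∈ frontier Om := by
  have hc : ContinuousOn (fun t : ℝ => u ((t : ℂ) * d)) (Icc 0 (3 / 2)) :=
    (u_cont.comp (by fun_prop : Continuous fun t : ℝ => (t : ℂ) * d)).continuousOn
  have h0 : u (((0 : ℝ) : ℂ) * d) = 1 / 2 := by simp [u_zero]
  have hn : ∀ t : ℝ, 0 ≤ t → ‖(t : ℂ) * d‖ = t := fun t ht => by
    rw [norm_mul, hd, mul_one, Complex.norm_real, Real.norm_eq_abs, abs_of_nonneg ht]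
  have h1 : u (((3 / 2 : ℝ) : ℂ) * d) < 0 := u_neg_of_norm (hn _ (by norm_num))
  have h2 : (0 : ℝ) ∈ Icc (u (((3 / 2 : ℝ) : ℂ) * d)) (u (((0 : ℝ) : ℂ) * d)) :=
    ⟨h1.le, by rw [h0]; norm_num⟩
  obtain ⟨t, ht, ht0⟩ := intermediate_value_Icc' (by norm_num : (0 : ℝ) ≤ 3 / 2) hc h2
  simp only at ht0
  have ht1 : t ≠ 0 := by
    rintro rfl
    rw [h0] at ht0
    norm_num at ht0
  have ht2 : t ≠ 3 / 2 := by
    rintro rfl
    linarith
  have ht3 : 0 < t := lt_of_le_of_ne ht.1 (Ne.symm ht1)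
  have ht4 : t < 3 / 2 := lt_of_le_of_ne ht.2 ht2
  exact ⟨t, ht3, ht4, mem_frontier.2 ⟨by rwa [hn t ht3.le], ht0⟩⟩

lemma om_normsq {t : ℝ} {d : ℂ} : rho ((t : ℂ) * d) = t ^ 2 * rho d := by
  unfold rho
  simp
  ring

lemma om_A {t : ℝ} {d : ℂ} : A ((t : ℂ) * d) = t ^ 2 * A d := by
  unfold A
  simp
  ring

/-- the farthest point -/
lemma farthest {z w : ℂ} (hz : z ∈ frontier Om) (hw : w ∈ frontier Om) (hA : A w = rho w)
    (hzA : A z ≠ rho z) : rho z < rho w := by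
  have h1 := (mem_frontier.1 hz).2
  have h2 := (mem_frontier.1 hw).2
  obtain ⟨b1, b2⟩ := rho_bound hz
  obtain ⟨c1, c2⟩ := rho_bound hw
  rw [u_eq] at h1 h2
  rw [hA] at h2
  have hlt : A z < rho z := lt_of_le_of_ne (A_le z) hzA
  have hge := neg_le_A z
  set r := rho z with hr
  set a := A z with ha
  set s := rho w with hs
  by_contra hcon
  push Not at hcon
  -- comparison at the same radius
  have h3 : a + a ^ 2 - r ^ 2 / 2 + a ^ 3 - 3 / 4 * a * r ^ 2 <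
      r + r ^ 2 - r ^ 2 / 2 + r ^ 3 - 3 / 4 * r * r ^ 2 := by
    have h4 : (r + r ^ 2 - r ^ 2 / 2 + r ^ 3 - 3 / 4 * r * r ^ 2) -
        (a + a ^ 2 - r ^ 2 / 2 + a ^ 3 - 3 / 4 * a * r ^ 2) =
        (r - a) * (1 + (r + a) + (a + r / 2) ^ 2) := by ring
    have h5 : 0 < (r - a) * (1 + (r + a) + (a + r / 2) ^ 2) := by
      apply mul_pos (by linarith)
      nlinarith [sq_nonneg (a + r / 2)]
    linarith
  -- monotonicity in the radius
  have h6 : ((1 - s) / 2 + 1 / 10000 * (s + s ^ 2 - s ^ 2 / 2 + s ^ 3 - 3 / 4 * s * s ^ 2)) -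
      ((1 - r) / 2 + 1 / 10000 * (r + r ^ 2 - r ^ 2 / 2 + r ^ 3 - 3 / 4 * r * r ^ 2)) =
      (r - s) * (1 / 2 - 1 / 10000 * (1 + (r + s) / 2 + (r ^ 2 + r * s + s ^ 2) / 4)) := by ring
  have h7 : 0 ≤ (r - s) * (1 / 2 - 1 / 10000 * (1 + (r + s) / 2 + (r ^ 2 + r * s + s ^ 2) / 4)) := by
    apply mul_nonneg (by linarith)
    nlinarith
  linarith

/-- the nearest point -/
lemma nearest {z w : ℂ} (hz : z ∈ frontier Om) (hw : w ∈ frontier Om) (hA : A w = -rho w)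
    (hzA : A z ≠ -rho z) : rho w < rho z := by
  have h1 := (mem_frontier.1 hz).2
  have h2 := (mem_frontier.1 hw).2
  obtain ⟨b1, b2⟩ := rho_bound hz
  obtain ⟨c1, c2⟩ := rho_bound hw
  rw [u_eq] at h1 h2
  rw [hA] at h2
  have hlt : -rho z < A z := lt_of_le_of_ne (neg_le_A z) (Ne.symm hzA)
  have hge := A_le z
  set r := rho z with hr
  set a := A z with ha
  set s := rho w with hs
  by_contra hcon
  push Not at hcon
  have h3 : (-r) + (-r) ^ 2 - r ^ 2 / 2 + (-r) ^ 3 - 3 / 4 * (-r) * r ^ 2 <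
      a + a ^ 2 - r ^ 2 / 2 + a ^ 3 - 3 / 4 * a * r ^ 2 := by
    have h4 : (a + a ^ 2 - r ^ 2 / 2 + a ^ 3 - 3 / 4 * a * r ^ 2) -
        ((-r) + (-r) ^ 2 - r ^ 2 / 2 + (-r) ^ 3 - 3 / 4 * (-r) * r ^ 2) =
        (a + r) * (1 + a - r + (a - r / 2) ^ 2) := by ring
    have h5 : 0 < (a + r) * (1 + a - r + (a - r / 2) ^ 2) := by
      apply mul_pos (by linarith)
      nlinarith [sq_nonneg (a + (1 - r) / 2)]
    linarith
  have h6 : ((1 - s) / 2 + 1 / 10000 * ((-s) + (-s) ^ 2 - s ^ 2 / 2 + (-s) ^ 3 -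
      3 / 4 * (-s) * s ^ 2)) -
      ((1 - r) / 2 + 1 / 10000 * ((-r) + (-r) ^ 2 - r ^ 2 / 2 + (-r) ^ 3 -
      3 / 4 * (-r) * r ^ 2)) =
      (s - r) * (-(1 / 2) + 1 / 10000 * (-1 + (r + s) / 2 - (r ^ 2 + r * s + s ^ 2) / 4)) := by ring
  have h7 : (s - r) * (-(1 / 2) + 1 / 10000 * (-1 + (r + s) / 2 - (r ^ 2 + r * s + s ^ 2) / 4)) ≤
      0 := by
    apply mul_nonpos_of_nonneg_of_nonpos (by linarith)
    nlinarith
  linarith

/-- the squared stress at the boundary -/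
lemma stress_sq {z : ℂ} (hz : z ∈ frontier Om) : ‖g z‖ ^ 2 = 1 + 2 / 10000 *
    (-A z - 3 * A z ^ 2 + 3 / 2 * rho z ^ 2 - 5 * A z ^ 3 + 15 / 4 * A z * rho z ^ 2) +
    1 / 10000 ^ 2 * (rho z * (4 + 4 * rho z ^ 2 + 9 / 4 * rho z ^ 4 + 8 * A z + 12 * A z ^ 2 -
      6 * rho z ^ 2 + 6 * rho z ^ 2 * A z)) := by
  have h1 := (mem_frontier.1 hz).2
  rw [u_eq] at h1
  rw [norm_g_sq]
  linarith

/-- the remainder term of the squared stress -/
lemma stress_rem {r a : ℝ} (h1 : 998 / 1000 ≤ r) (h2 : r ≤ 1002 / 1000) (h3 : -r ≤ a)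
    (h4 : a ≤ r) : -40 ≤ r * (4 + 4 * r ^ 2 + 9 / 4 * r ^ 4 + 8 * a + 12 * a ^ 2 -
      6 * r ^ 2 + 6 * r ^ 2 * a) ∧ r * (4 + 4 * r ^ 2 + 9 / 4 * r ^ 4 + 8 * a + 12 * a ^ 2 -
      6 * r ^ 2 + 6 * r ^ 2 * a) ≤ 40 := by
  have hr2 : r ^ 2 ≤ 101 / 100 := by nlinarith
  have hr2' : 99 / 100 ≤ r ^ 2 := by nlinarith
  have hr4 : r ^ 4 ≤ 103 / 100 := by nlinarith
  have hr4' : 0 ≤ r ^ 4 := by positivity
  have ha2 : a ^ 2 ≤ r ^ 2 := by nlinarith
  have ha3 : |r ^ 2 * a| ≤ 102 / 100 := by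
    rw [abs_le]
    constructor <;> nlinarith
  have ha3' := abs_le.1 ha3
  set X := 4 + 4 * r ^ 2 + 9 / 4 * r ^ 4 + 8 * a + 12 * a ^ 2 - 6 * r ^ 2 + 6 * r ^ 2 * a with hX
  have hX1 : X ≤ 38 := by nlinarith
  have hX2 : -38 ≤ X := by nlinarith [sq_nonneg a]
  constructor <;> nlinarith

/-- points of the boundary with `A ≤ 1/10` have less stress than the boundary points in the
direction `(4, 3)` -/
lemma stress_lt {z w : ℂ} (hz : z ∈ frontier Om) (hw : w ∈ frontier Om) (hA : A z ≤ 1 / 10)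
    (hwA : A w = 7 / 25 * rho w) : ‖g z‖ ^ 2 < ‖g w‖ ^ 2 := by
  obtain ⟨b1, b2⟩ := rho_bound hz
  obtain ⟨c1, c2⟩ := rho_bound hw
  have r1 := stress_rem b1 b2 (neg_le_A z) (A_le z)
  have r2 := stress_rem c1 c2 (neg_le_A w) (A_le w)
  rw [stress_sq hz, stress_sq hw]
  have hz3 := neg_le_A z
  have k1 : -A z - 3 * A z ^ 2 + 3 / 2 * rho z ^ 2 - 5 * A z ^ 3 + 15 / 4 * A z * rho z ^ 2 ≤
      179 / 100 := by
    set r := rho z
    set a := A z
    have hr2 : r ^ 2 ≤ 1005 / 1000 := by nlinarith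
    have hr2' : 995 / 1000 ≤ r ^ 2 := by nlinarith
    have e : -a - 3 * a ^ 2 + 3 / 2 * r ^ 2 - 5 * a ^ 3 + 15 / 4 * a * r ^ 2 =
      3 / 2 * r ^ 2 + a * (15 / 4 * r ^ 2 - 1 - 3 * a - 5 * a ^ 2) := by ring
    rw [e]
    rcases le_or_gt a 0 with h | h
    · have h5 : 0 ≤ 15 / 4 * r ^ 2 - 1 - 3 * a - 5 * a ^ 2 := by nlinarith
      have h6 : a * (15 / 4 * r ^ 2 - 1 - 3 * a - 5 * a ^ 2) ≤ 0 :=
        mul_nonpos_of_nonpos_of_nonneg h h5
      linarith
    · have h5 : 15 / 4 * r ^ 2 - 1 - 3 * a - 5 * a ^ 2 ≤ 278 / 100 := by nlinarith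
      have h6 : a * (15 / 4 * r ^ 2 - 1 - 3 * a - 5 * a ^ 2) ≤ a * (278 / 100) :=
        mul_le_mul_of_nonneg_left h5 h.le
      linarith
  have k2 : 19 / 10 ≤ -A w - 3 * A w ^ 2 + 3 / 2 * rho w ^ 2 - 5 * A w ^ 3 +
      15 / 4 * A w * rho w ^ 2 := by
    rw [hwA]
    set r := rho w
    have hr2' : 995 / 1000 ≤ r ^ 2 := by nlinarith
    have hr3' : 993 / 1000 ≤ r ^ 3 := by nlinarith
    nlinarith
  linarith [r1.2, r2.1]

/-! ## The main result -/

lemma closure_frontier_eq {s s' : ℂ → ℝ} (h1 : ContinuousOn s (closure Om))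
    (h2 : Continuous s') (h3 : ∀ x ∈ Om, s x = s' x) : ∀ x ∈ closure Om, s x = s' x := by
  have h4 : EqOn s s' Om := h3
  exact h4.of_subset_closure h1 h2.continuousOn subset_closure le_rfl

lemma stress_max_of {p : ℂ} (hp : IsMaxStress Om u p) : ∀ q ∈ frontier Om, ‖g q‖ ≤ ‖g p‖ := by
  obtain ⟨hpf, s, hs, hs1, hs2⟩ := hp
  have h1 : ∀ x ∈ closure Om, s x = ‖g x‖ := closure_frontier_eq hs g_cont.norm fun x hx => by
    rw [hs1 x hx, norm_fderiv_u]
  intro q hq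
  have h2 := hs2 q hq
  rwa [h1 q (frontier_subset_closure hq), h1 p (frontier_subset_closure hpf)] at h2

lemma isMaxStress_of {p : ℂ} (hp : p ∈ frontier Om) (h : ∀ q ∈ frontier Om, ‖g q‖ ≤ ‖g p‖) :
    IsMaxStress Om u p :=
  ⟨hp, fun z => ‖g z‖, g_cont.norm.continuousOn, fun x _ => (norm_fderiv_u x).symm, h⟩

/-- reflection into the first quadrant -/
noncomputable def fold (z : ℂ) : ℂ := ⟨|z.re|, |z.im|⟩

lemma rho_fold (z : ℂ) : rho (fold z) = rho z := by simp [rho, fold]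

lemma A_fold (z : ℂ) : A (fold z) = A z := by simp [A, fold]

lemma frontier_congr {z w : ℂ} (h1 : rho z = rho w) (h2 : A z = A w) (hz : z ∈ frontier Om) :
    w ∈ frontier Om := by
  obtain ⟨h3, h4⟩ := mem_frontier.1 hz
  refine mem_frontier.2 ⟨?_, ?_⟩
  · have h5 : ‖w‖ ^ 2 = ‖z‖ ^ 2 := by rw [norm_sq_eq, norm_sq_eq, h1]
    have h6 : ‖w‖ = ‖z‖ := by
      exact (pow_left_inj₀ (norm_nonneg _) (norm_nonneg _) two_ne_zero).1 h5
    rwa [h6]
  · rw [u_eq] at h4 ⊢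
    rw [← h1, ← h2]
    exact h4

lemma norm_g_congr {z w : ℂ} (h1 : rho z = rho w) (h2 : A z = A w) : ‖g z‖ = ‖g w‖ := by
  refine (pow_left_inj₀ (norm_nonneg _) (norm_nonneg _) two_ne_zero).1 ?_
  rw [norm_g_sq, norm_g_sq, h1, h2]

lemma frontier_compact : IsCompact (frontier Om) :=
  Metric.isCompact_of_isClosed_isBounded isClosed_frontier
    (Om_bounded.closure.subset frontier_subset_closure)

lemma disk_aux {r s q a b : ℝ} (hr : 0 < r) (hs : 0 < s) (h : s ^ 2 < r ^ 2)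
    (e1 : q ^ 2 = (r - a) ^ 2 + (0 - b) ^ 2) (e2 : q ^ 2 = (-r - a) ^ 2 + (-0 - b) ^ 2)
    (e3 : q ^ 2 = (0 - a) ^ 2 + (s - b) ^ 2) (e4 : q ^ 2 = (-0 - a) ^ 2 + (-s - b) ^ 2) : False := by
  have h1 : r * a = 0 := by linear_combination (e1 - e2) / 4
  have h2 : s * b = 0 := by linear_combination (e3 - e4) / 4
  have ha : a = 0 := (mul_eq_zero.1 h1).resolve_left hr.ne'
  have hb : b = 0 := (mul_eq_zero.1 h2).resolve_left hs.ne'
  subst ha hb
  linarith

lemma loc_aux {x y r s : ℝ} (hx : 0 ≤ x) (hy : 0 ≤ y) (h2 : 1 / 10 < x ^ 2 - y ^ 2)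
    (b2 : x ^ 2 + y ^ 2 ≤ 1002 / 1000) (hr0 : 0 < r) (hs0 : 0 < s)
    (bf : r ^ 2 ≤ 1002 / 1000) (bn : 998 / 1000 ≤ s ^ 2) (hsr : s ^ 2 < r ^ 2) :
    (x - r) ^ 2 + (y - 0) ^ 2 < (x - 0) ^ 2 + (y - s) ^ 2 := by
  have hsum : x + y ≤ 142 / 100 := by nlinarith [sq_nonneg (x - y)]
  have hsum0 : 0 ≤ x + y := by linarith
  have hxy : 6 / 100 ≤ x - y := by
    by_contra hcon
    push Not at hcon
    have e : x ^ 2 - y ^ 2 = (x - y) * (x + y) := by ring
    have : (x - y) * (x + y) ≤ 6 / 100 * (x + y) := mul_le_mul_of_nonneg_right hcon.le hsum0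
    linarith
  have hs1 : 99 / 100 ≤ s := by nlinarith
  have hsr' : s ≤ r := (pow_le_pow_iff_left₀ hs0.le hr0.le two_ne_zero).1 hsr.le
  have k1 : s * (6 / 100) ≤ s * (x - y) := mul_le_mul_of_nonneg_left hxy hs0.le
  have k2 : x * s ≤ x * r := mul_le_mul_of_nonneg_left hsr' hx
  have e : (x - 0) ^ 2 + (y - s) ^ 2 - ((x - r) ^ 2 + (y - 0) ^ 2) =
    2 * (x * r - x * s) + 2 * (s * (x - y)) - (r ^ 2 - s ^ 2) := by ring
  linarith

lemma far_aux {a b : ℝ} (b1 : 998 / 1000 ≤ a) (b2 : a ≤ 1002 / 1000) (c1 : 998 / 1000 ≤ b)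
    (c2 : b ≤ 1002 / 1000) (h6 : (a - b) * (1 / 2 - 1 / 10000 * (1 + (a + b) / 2 +
      (a ^ 2 + a * b + b ^ 2) / 4)) = 0) : a = b := by
  rcases mul_eq_zero.1 h6 with h7 | h7
  · linarith
  · nlinarith

lemma near_aux {a b : ℝ} (b1 : 998 / 1000 ≤ a) (b2 : a ≤ 1002 / 1000) (c1 : 998 / 1000 ≤ b)
    (c2 : b ≤ 1002 / 1000) (h6 : (a - b) * (-(1 / 2) + 1 / 10000 * (-1 + (a + b) / 2 -
      (a ^ 2 + a * b + b ^ 2) / 4)) = 0) : a = b := by
  rcases mul_eq_zero.1 h6 with h7 | h7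
  · linarith
  · nlinarith

/-- the gradient does not vanish at the boundary -/
lemma grad_pos {p : ℂ} (hp : p ∈ frontier Om) : 0 < ‖g p‖ := by
  have h3 := stress_sq hp
  have h4 := rho_bound hp
  have h5 := stress_rem h4.1 h4.2 (neg_le_A p) (A_le p)
  have h6 := neg_le_A p
  have h7 := A_le p
  have hr2 : rho p ^ 2 ≤ 1005 / 1000 := by nlinarith [h4.1, h4.2]
  have ha2 : A p ^ 2 ≤ 1005 / 1000 := by nlinarith
  have ha1 : |A p| ≤ 1002 / 1000 := abs_le.2 ⟨by linarith [h4.2], by linarith [h4.2]⟩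
  have ha3 : |A p ^ 3| ≤ 102 / 100 := by
    rw [show A p ^ 3 = A p * A p ^ 2 by ring, abs_mul, abs_of_nonneg (sq_nonneg (A p))]
    calc |A p| * A p ^ 2 ≤ 1002 / 1000 * (1005 / 1000) :=
          mul_le_mul ha1 ha2 (sq_nonneg _) (by norm_num)
      _ ≤ 102 / 100 := by norm_num
  have ha4 : |A p * rho p ^ 2| ≤ 102 / 100 := by
    rw [abs_mul, abs_of_nonneg (sq_nonneg (rho p))]
    calc |A p| * rho p ^ 2 ≤ 1002 / 1000 * (1005 / 1000) :=
          mul_le_mul ha1 hr2 (sq_nonneg _) (by norm_num)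
      _ ≤ 102 / 100 := by norm_num
  have ha1' := abs_le.1 ha1
  have ha3' := abs_le.1 ha3
  have ha4' := abs_le.1 ha4
  have h8 : 0 < ‖g p‖ ^ 2 := by
    rw [h3]
    have h8 := sq_nonneg (rho p)
    linarith [h5.1, ha1'.1, ha1'.2, ha3'.1, ha3'.2, ha4'.1, ha4'.2]
  by_contra h9
  have h10 : ‖g p‖ = 0 := le_antisymm (not_lt.1 h9) (norm_nonneg _)
  rw [h10] at h8
  norm_num at h8

/-- **Main result.** There is a bounded convex planar domain, symmetric about both coordinate axes,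
with `C²` boundary and not a disk, with unique farthest and nearest boundary points `xf`, `xn` in
the closed first quadrant, such that there is a point of maximal stress in the closed first quadrant
and every such point is strictly closer to `xf` than to `xn`. -/
theorem result : ∃ (Ω : Set ℂ) (u : ℂ → ℝ) (xf xn : ℂ),
    IsOpen Ω ∧ Convex ℝ Ω ∧ Bornology.IsBounded Ω ∧ Ω.Nonempty ∧
    (∀ x y : ℝ, (⟨x, y⟩ : ℂ) ∈ Ω → (⟨-x, y⟩ : ℂ) ∈ Ω ∧ (⟨x, -y⟩ : ℂ) ∈ Ω) ∧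
    (∀ (c : ℂ) (r : ℝ), Ω ≠ ball c r) ∧ HasC2Boundary Ω ∧ IsTorsion Ω u ∧
    (xf ∈ Gam Ω ∧ ∀ z ∈ Gam Ω, z ≠ xf → ‖z‖ < ‖xf‖) ∧
    (xn ∈ Gam Ω ∧ ∀ z ∈ Gam Ω, z ≠ xn → ‖xn‖ < ‖z‖) ∧
    (∃ p ∈ Gam Ω, IsMaxStress Ω u p) ∧
    ∀ p ∈ Gam Ω, IsMaxStress Ω u p → dist p xf < dist p xn := by
  obtain ⟨r, hr0, -, hr⟩ := dir_exists (d := 1) (by simp)
  obtain ⟨s, hs0, -, hs⟩ := dir_exists (d := Complex.I) (by simp)
  obtain ⟨t, ht0, -, ht⟩ := dir_exists (d := ⟨4 / 5, 3 / 5⟩) (by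
    rw [← pow_left_inj₀ (norm_nonneg _) zero_le_one two_ne_zero, norm_sq_eq]
    unfold rho
    norm_num)
  set xf : ℂ := (r : ℂ) * 1 with hxf
  set xn : ℂ := (s : ℂ) * Complex.I with hxn
  have rf : rho xf = r ^ 2 := by rw [hxf, om_normsq]; simp [rho]
  have rn : rho xn = s ^ 2 := by rw [hxn, om_normsq]; simp [rho]
  have af : A xf = r ^ 2 := by rw [hxf, om_A]; simp [A]
  have an : A xn = -s ^ 2 := by rw [hxn, om_A]; simp [A]
  have xfre : xf.re = r := by simp [hxf]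
  have xfim : xf.im = 0 := by simp [hxf]
  have xnre : xn.re = 0 := by simp [hxn]
  have xnim : xn.im = s := by simp [hxn]
  have bf := rho_bound hr
  have bn := rho_bound hs
  rw [rf] at bf
  rw [rn] at bn
  have hxne : rho xn < rho xf := nearest hr hs (by rw [an, rn]) (by rw [af, rf]; nlinarith [sq_pos_of_pos hr0])
  refine ⟨Om, u, xf, xn, Om_open, Om_convex, Om_bounded, ⟨0, zero_mem⟩, ?_, ?_, ?_, ?_, ?_, ?_,
    ?_, ?_⟩
  · -- symmetry
    have key : ∀ z w : ℂ, rho z = rho w → A z = A w → z ∈ Om → w ∈ Om := by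
      intro z w h1 h2 h3
      refine ⟨?_, ?_⟩
      · have h5 : ‖w‖ ^ 2 = ‖z‖ ^ 2 := by rw [norm_sq_eq, norm_sq_eq, h1]
        have h6 : ‖w‖ = ‖z‖ := (pow_left_inj₀ (norm_nonneg _) (norm_nonneg _) two_ne_zero).1 h5
        rw [h6]
        exact h3.1
      · have := h3.2
        rw [u_eq] at this ⊢
        rwa [← h1, ← h2]
    intro x y h
    exact ⟨key _ _ (by simp [rho]) (by simp [A]) h, key _ _ (by simp [rho]) (by simp [A]) h⟩
  · -- not a disk
    intro c q hq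
    have hq0 : q ≠ 0 := by
      rintro rfl
      have := zero_mem
      rw [hq] at this
      simp at this
    have hfr : ∀ z ∈ frontier Om, dist z c = q := by
      intro z hz
      rw [hq, frontier_ball c hq0] at hz
      exact hz
    have h1 := hfr xf hr
    have h2 := hfr (-xf) (frontier_congr (by simp [rho]) (by simp [A]) hr)
    have h3 := hfr xn hs
    have h4 := hfr (-xn) (frontier_congr (by simp [rho]) (by simp [A]) hs)
    have d2 : ∀ z : ℂ, dist z c ^ 2 = (z.re - c.re) ^ 2 + (z.im - c.im) ^ 2 := by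
      intro z
      rw [dist_eq_norm, norm_sq_eq]
      simp [rho]
    have e1 := d2 xf
    have e2 := d2 (-xf)
    have e3 := d2 xn
    have e4 := d2 (-xn)
    rw [h1] at e1
    rw [h2] at e2
    rw [h3] at e3
    rw [h4] at e4
    simp only [Complex.neg_re, Complex.neg_im, xfre, xfim, xnre, xnim] at e1 e2 e3 e4
    rw [rf, rn] at hxne
    exact disk_aux hr0 hs0 hxne e1 e2 e3 e4
  · -- C² boundary
    intro p hp
    obtain ⟨h1, h2⟩ := mem_frontier.1 hp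
    have hcg : Continuous fun z => ‖g z‖ := g_cont.norm
    refine ⟨{z | ‖z‖ < 3 / 2} ∩ {z | 0 < ‖g z‖}, fun z => -u z, ?_, ⟨h1, ?_⟩, ?_, ?_, ?_⟩
    · exact (isOpen_lt continuous_norm continuous_const).inter (isOpen_lt continuous_const hcg)
    · exact grad_pos hp
    · exact contDiff_u.neg.contDiffOn
    · rintro z ⟨-, hz⟩ h
      have h3 : HasFDerivAt (fun z => -u z) (-(innerSL ℝ (g z))) z := (hasFDeriv_u z).neg
      rw [h3.fderiv, neg_eq_zero] at h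
      have h4 : ‖g z‖ = 0 := by rw [← innerSL_apply_norm (𝕜 := ℝ) (g z), h, norm_zero]
      have h5 : 0 < ‖g z‖ := hz
      linarith
    · ext z
      constructor
      · rintro ⟨hz1, hz2⟩
        exact ⟨hz2, neg_neg_of_pos hz1.2⟩
      · rintro ⟨hz1, hz2⟩
        exact ⟨⟨hz1.1, neg_neg_iff_pos.1 hz2⟩, hz1⟩
  · -- torsion function
    exact ⟨u_cont.continuousOn, contDiff_u.contDiffOn, fun x _ => laplacian_u x,
      fun x hx => (mem_frontier.1 hx).2⟩
  · -- farthest point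
    refine ⟨⟨hr, by rw [xfre]; exact hr0.le, by rw [xfim]⟩, ?_⟩
    rintro z ⟨hz, hz1, hz2⟩ hne
    have h1 : A z ≠ rho z := by
      intro h
      apply hne
      have h2 : z.im = 0 := by
        unfold A rho at h
        have : z.im ^ 2 = 0 := by linarith
        exact pow_eq_zero_iff two_ne_zero |>.1 this
      have h3 : rho z = rho xf := by
        by_contra hcon
        have hz' := (mem_frontier.1 hz).2
        have hf' := (mem_frontier.1 hr).2
        rw [u_eq, h] at hz'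
        rw [u_eq, af, rf] at hf'
        obtain ⟨b1, b2⟩ := rho_bound hz
        rw [rf] at hcon
        obtain ⟨c1, c2⟩ := bf
        have h6 : (rho z - r ^ 2) * (1 / 2 - 1 / 10000 * (1 + (rho z + r ^ 2) / 2 +
            (rho z ^ 2 + rho z * r ^ 2 + (r ^ 2) ^ 2) / 4)) = 0 := by linarith
        exact hcon (far_aux b1 b2 c1 c2 h6)
      apply Complex.ext
      · rw [xfre]
        unfold rho at h3
        rw [h2, xfre, xfim] at h3
        exact (pow_left_inj₀ hz1 hr0.le two_ne_zero).1 (by linarith)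
      · rw [h2, xfim]
    have h2 := farthest hz hr (by rw [af, rf]) h1
    rw [← norm_sq_eq, ← norm_sq_eq] at h2
    exact lt_of_pow_lt_pow_left₀ 2 (norm_nonneg _) h2
  · -- nearest point
    refine ⟨⟨hs, by rw [xnre], by rw [xnim]; exact hs0.le⟩, ?_⟩
    rintro z ⟨hz, hz1, hz2⟩ hne
    have h1 : A z ≠ -rho z := by
      intro h
      apply hne
      have h2 : z.re = 0 := by
        unfold A rho at h
        have : z.re ^ 2 = 0 := by linarith
        exact pow_eq_zero_iff two_ne_zero |>.1 this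
      have h3 : rho z = rho xn := by
        by_contra hcon
        have hz' := (mem_frontier.1 hz).2
        have hf' := (mem_frontier.1 hs).2
        rw [u_eq, h] at hz'
        rw [u_eq, an, rn] at hf'
        obtain ⟨b1, b2⟩ := rho_bound hz
        rw [rn] at hcon
        obtain ⟨c1, c2⟩ := bn
        have h6 : (rho z - s ^ 2) * (-(1 / 2) + 1 / 10000 * (-1 + (rho z + s ^ 2) / 2 -
            (rho z ^ 2 + rho z * s ^ 2 + (s ^ 2) ^ 2) / 4)) = 0 := by linarith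
        exact hcon (near_aux b1 b2 c1 c2 h6)
      apply Complex.ext
      · rw [h2, xnre]
      · rw [xnim]
        unfold rho at h3
        rw [h2, xnre, xnim] at h3
        exact (pow_left_inj₀ hz2 hs0.le two_ne_zero).1 (by linarith)
    have h2 := nearest hz hs (by rw [an, rn]) h1
    rw [← norm_sq_eq, ← norm_sq_eq] at h2
    exact lt_of_pow_lt_pow_left₀ 2 (norm_nonneg _) h2
  · -- existence of a point of maximal stress
    obtain ⟨q, hq, hmax⟩ := frontier_compact.exists_isMaxOn ⟨_, hr⟩ g_cont.norm.continuousOn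
    refine ⟨fold q, ⟨frontier_congr (rho_fold q).symm (A_fold q).symm hq, abs_nonneg _,
      abs_nonneg _⟩, isMaxStress_of (frontier_congr (rho_fold q).symm (A_fold q).symm hq) ?_⟩
    intro z hz
    rw [norm_g_congr (rho_fold q) (A_fold q)]
    exact hmax hz
  · -- location
    rintro p ⟨hp, hp1, hp2⟩ hmax
    have h1 := stress_max_of hmax _ ht
    have hAt : A ((t : ℂ) * ⟨4 / 5, 3 / 5⟩) = 7 / 25 * rho ((t : ℂ) * ⟨4 / 5, 3 / 5⟩) := by
      rw [om_A, om_normsq]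
      unfold A rho
      ring
    have h2 : 1 / 10 < A p := by
      by_contra hcon
      have h3 := stress_lt hp ht (not_lt.1 hcon) hAt
      have h4 := pow_le_pow_left₀ (norm_nonneg _) h1 2
      linarith
    obtain ⟨b1, b2⟩ := rho_bound hp
    have hd : dist p xf ^ 2 < dist p xn ^ 2 := by
      rw [dist_eq_norm, dist_eq_norm, norm_sq_eq, norm_sq_eq]
      unfold rho
      simp only [Complex.sub_re, Complex.sub_im, xfre, xfim, xnre, xnim]
      unfold A at h2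
      unfold rho at b1 b2
      rw [rf, rn] at hxne
      exact loc_aux hp1 hp2 h2 b2 hr0 hs0 bf.2 bn.1 hxne
    exact lt_of_pow_lt_pow_left₀ 2 dist_nonneg hd

end Pool.Agent.Results.MP_f43ce7_an.StressNearFarthest
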